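import Mathlib

set_option autoImplicit false

open MeasureTheory
open scoped ENNReal

namespace Pool.Agent.Results.MP_97409a_pr.DaleyBoundFails

/-- The increasing rearrangement of a vector. -/
noncomputable def increasing {k : ℕ} (v : Fin k → ℝ) : Fin k → ℝ := v ∘ Tuple.sort v

/-- The Kiefer-Wolfowitz recursion. -/
noncomputable def kwStep {k : ℕ} (w : Fin k → ℝ) (s t : ℝ) : Fin k → ℝ :=
  increasing (fun i => max (w i + (if (i : ℕ) = 0 then s else 0) - t) 0)

lemma increasing_mono {k : ℕ} (v : Fin k → ℝ) : Monotone (increasing v) :=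
  Tuple.monotone_sort v

lemma increasing_comp_perm {k : ℕ} (v : Fin k → ℝ) (σ : Equiv.Perm (Fin k)) :
    increasing (v ∘ σ) = increasing v :=
  Tuple.comp_perm_comp_sort_eq_comp_sort

lemma card_increasing {k : ℕ} (v : Fin k → ℝ) (p : ℝ → Prop) [DecidablePred p] :
    (Finset.univ.filter (fun i => p (increasing v i))).card =
      (Finset.univ.filter (fun i => p (v i))).card := by
  apply Finset.card_bij (fun i _ => Tuple.sort v i)
  · intro i hi
    rw [Finset.mem_filter] at hi ⊢
    exact ⟨Finset.mem_univ _, hi.2⟩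
  · intro a _ b _ h
    exact (Tuple.sort v).injective h
  · intro b hb
    refine ⟨(Tuple.sort v).symm b, ?_, by simp⟩
    rw [Finset.mem_filter] at hb ⊢
    refine ⟨Finset.mem_univ _, ?_⟩
    unfold increasing
    simpa using hb.2

lemma increasing_le_iff {k : ℕ} (v : Fin k → ℝ) (j : Fin k) (a : ℝ) :
    increasing v j ≤ a ↔ (j : ℕ) < (Finset.univ.filter (fun i => v i ≤ a)).card := by
  rw [← card_increasing v (fun x => x ≤ a)]
  exact (Tuple.lt_card_le_iff_apply_le_of_monotone (increasing_mono v)).symm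

lemma measurable_count {k : ℕ} (a : ℝ) :
    Measurable (fun v : Fin k → ℝ => (Finset.univ.filter (fun i => v i ≤ a)).card) := by
  simp_rw [Finset.card_filter]
  apply Finset.measurable_sum
  intro i _
  apply Measurable.ite _ measurable_const measurable_const
  exact measurableSet_le (measurable_pi_apply i) measurable_const

lemma measurable_increasing {k : ℕ} : Measurable (increasing : (Fin k → ℝ) → (Fin k → ℝ)) := by
  rw [measurable_pi_iff]
  intro j
  apply measurable_of_Iic
  intro a
  have : (fun v : Fin k → ℝ => increasing v j) ⁻¹' Set.Iic a =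
      (fun v : Fin k → ℝ => (Finset.univ.filter (fun i => v i ≤ a)).card) ⁻¹' Set.Ioi (j : ℕ) := by
    ext v
    simp only [Set.mem_preimage, Set.mem_Iic, Set.mem_Ioi]
    exact increasing_le_iff v j a
  rw [this]
  exact measurable_count a measurableSet_Ioi

lemma measurable_kwStep {k : ℕ} :
    Measurable (fun p : (Fin k → ℝ) × ℝ × ℝ => kwStep p.1 p.2.1 p.2.2) := by
  unfold kwStep
  apply measurable_increasing.comp
  rw [measurable_pi_iff]
  intro i
  apply Measurable.max _ measurable_const
  apply Measurable.sub _ (measurable_snd.comp measurable_snd)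
  apply Measurable.add ((measurable_pi_apply i).comp measurable_fst)
  split_ifs
  · exact measurable_fst.comp measurable_snd
  · exact measurable_const

/-- If a vector is dominated by a permuted monotone vector, so is its increasing
rearrangement. -/
lemma increasing_le {k : ℕ} (v b : Fin k → ℝ) (hb : Monotone b) (τ : Equiv.Perm (Fin k))
    (h : ∀ i, v i ≤ b (τ i)) (j : Fin k) : increasing v j ≤ b j := by
  rw [increasing_le_iff]
  have h1 : (Finset.univ.filter (fun i => i ≤ j)).card ≤
      (Finset.univ.filter (fun i => v i ≤ b j)).card := by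
    apply Finset.card_le_card_of_injOn (fun i => τ.symm i)
    · intro i hi
      rw [Finset.mem_coe, Finset.mem_filter] at hi ⊢
      refine ⟨Finset.mem_univ _, ?_⟩
      replace hi := hi.2
      have := h (τ.symm i)
      simp only [Equiv.apply_symm_apply] at this
      exact this.trans (hb hi)
    · intro a _ b _ hab
      exact τ.symm.injective hab
  have h2 : (Finset.univ.filter (fun i => i ≤ j)).card = (j : ℕ) + 1 := by
    have : Finset.univ.filter (fun i => i ≤ j) = Finset.Iic j := by
      ext x; simp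
    rw [this, Fin.card_Iic]
  omega

/-- `μ` is the law of a nonnegative random variable with mean `m1` and second moment `m2`. -/
structure HasMoments (μ : Measure ℝ) (m1 m2 : ℝ) : Prop where
  prob : IsProbabilityMeasure μ
  nonneg : ∀ᵐ x ∂μ, 0 ≤ x
  integrable_one : Integrable (fun x : ℝ => x) μ
  integrable_two : Integrable (fun x : ℝ => x ^ 2) μ
  mean : ∫ x, x ∂μ = m1
  second : ∫ x, x ^ 2 ∂μ = m2

/-- `π` is a stationary law of the ordered workload vector of the `k`-server queue with
interarrival law `μT` and service law `μS`. -/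
structure IsStationary (k : ℕ) (μT μS : Measure ℝ) (π : Measure (Fin k → ℝ)) : Prop where
  prob : IsProbabilityMeasure π
  ordered : ∀ᵐ w ∂π, Monotone w ∧ ∀ i, 0 ≤ w i
  invariant :
    Measure.map (fun p : (Fin k → ℝ) × ℝ × ℝ => kwStep p.1 p.2.1 p.2.2) (π.prod (μS.prod μT)) = π

/-- The mean of the first coordinate (the stationary mean waiting time), in `[0, ∞]`. -/
noncomputable def meanWait {k : ℕ} (hk : 0 < k) (π : Measure (Fin k → ℝ)) : ℝ≥0∞ :=
  ∫⁻ w, ENNReal.ofReal (w ⟨0, hk⟩) ∂π

/-- The left-hand side `2 k² ρ (1 - ρ) ET EW₁`, where `ρ = ES / (k ET)`. -/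
noncomputable def lhs {k : ℕ} (hk : 0 < k) (mT mS : ℝ) (π : Measure (Fin k → ℝ)) : ℝ≥0∞ :=
  ENNReal.ofReal (2 * (k : ℝ) ^ 2 * (mS / (k * mT)) * (1 - mS / (k * mT)) * mT) * meanWait hk π

/-- The right-hand side `[1 - k (1 - ρ)] [ES² - (2k-1) ES ET + k (k-1) (ET)²]₊`. -/
noncomputable def rhs (k : ℕ) (mT mS mS2 : ℝ) : ℝ :=
  (1 - k * (1 - mS / (k * mT))) *
    max (mS2 - (2 * k - 1) * mS * mT + k * (k - 1) * mT ^ 2) 0

/-- Part (a) of Q1 for the given `k` and moments. -/
def PartA {k : ℕ} (hk : 0 < k) (mT mS mT2 mS2 : ℝ) : Prop :=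
  ∀ (μT μS : Measure ℝ) (π : Measure (Fin k → ℝ)), HasMoments μT mT mT2 → HasMoments μS mS mS2 →
    IsStationary k μT μS π → ENNReal.ofReal (rhs k mT mS mS2) ≤ lhs hk mT mS π

/-- Part (b) of Q1 for the given `k` and moments. -/
def PartB {k : ℕ} (hk : 0 < k) (mT mS mT2 mS2 : ℝ) : Prop :=
  IsGLB {x : ℝ≥0∞ | ∃ (μT μS : Measure ℝ) (π : Measure (Fin k → ℝ)), HasMoments μT mT mT2 ∧
    HasMoments μS mS mS2 ∧ IsStationary k μT μS π ∧ x = lhs hk mT mS π}
    (ENNReal.ofReal (rhs k mT mS mS2))

/-- The statement of Q1. -/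
def Conjecture : Prop :=
  ∀ (k : ℕ) (hk : 0 < k), 2 ≤ k → ∀ mT mS mT2 mS2 : ℝ,
    (∃ μT μS : Measure ℝ, HasMoments μT mT mT2 ∧ HasMoments μS mS mS2) →
    1 - 1 / (k : ℝ) ≤ mS / (k * mT) → mS / (k * mT) < 1 →
    PartA hk mT mS mT2 mS2 ∧ PartB hk mT mS mT2 mS2

/-! ### Two-point laws -/

/-- Mass `1 - p` at `a` and mass `p` at `b`. -/
noncomputable def twoPoint (a b p : ℝ) : Measure ℝ :=
  ENNReal.ofReal (1 - p) • Measure.dirac a + ENNReal.ofReal p • Measure.dirac b

lemma twoPoint_prob (a b p : ℝ) (h0 : 0 ≤ p) (h1 : p ≤ 1) :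
    IsProbabilityMeasure (twoPoint a b p) := by
  constructor
  unfold twoPoint
  simp only [Measure.coe_add, Measure.coe_smul, Pi.add_apply, Pi.smul_apply, measure_univ,
    smul_eq_mul, mul_one]
  rw [← ENNReal.ofReal_add (by linarith) h0]
  simp

lemma twoPoint_ae (a b p : ℝ) (P : ℝ → Prop) (ha : P a) (hb : P b) :
    ∀ᵐ x ∂(twoPoint a b p), P x := by
  unfold twoPoint
  rw [ae_add_measure_iff]
  constructor
  · apply Measure.ae_smul_measure
    rw [ae_dirac_eq]
    exact ha
  · apply Measure.ae_smul_measure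
    rw [ae_dirac_eq]
    exact hb

lemma twoPoint_integrable (a b p : ℝ) (f : ℝ → ℝ) : Integrable f (twoPoint a b p) := by
  unfold twoPoint
  apply Integrable.add_measure
  · exact (integrable_dirac (by simp)).smul_measure ENNReal.ofReal_ne_top
  · exact (integrable_dirac (by simp)).smul_measure ENNReal.ofReal_ne_top

lemma twoPoint_integral (a b p : ℝ) (h0 : 0 ≤ p) (h1 : p ≤ 1) (f : ℝ → ℝ) :
    ∫ x, f x ∂(twoPoint a b p) = (1 - p) * f a + p * f b := by
  unfold twoPoint
  rw [integral_add_measure]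
  · rw [integral_smul_measure, integral_smul_measure, integral_dirac, integral_dirac,
      ENNReal.toReal_ofReal (by linarith), ENNReal.toReal_ofReal h0]
    simp
  · exact (integrable_dirac (by simp)).smul_measure ENNReal.ofReal_ne_top
  · exact (integrable_dirac (by simp)).smul_measure ENNReal.ofReal_ne_top

lemma twoPoint_moments (a b p m1 m2 : ℝ) (h0 : 0 ≤ p) (h1 : p ≤ 1) (ha : 0 ≤ a) (hb : 0 ≤ b)
    (e1 : (1 - p) * a + p * b = m1) (e2 : (1 - p) * a ^ 2 + p * b ^ 2 = m2) :
    HasMoments (twoPoint a b p) m1 m2 where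
  prob := twoPoint_prob a b p h0 h1
  nonneg := twoPoint_ae a b p _ ha hb
  integrable_one := twoPoint_integrable a b p _
  integrable_two := twoPoint_integrable a b p _
  mean := by rw [twoPoint_integral a b p h0 h1, e1]
  second := by rw [twoPoint_integral a b p h0 h1, e2]

/-! ### Construction of a stationary law -/

/-- The workloads, in order of arrival, of the last `m + 1` customers. -/
noncomputable def slots {m : ℕ} (z : Fin (m + 1) → ℝ × ℝ) : Fin (m + 1) → ℝ :=
  fun i => max ((z i).1 - ∑ l, if i ≤ l then (z l).2 else 0) 0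

/-- Forget the oldest customer and append a new one. -/
def shift {m : ℕ} (p : (Fin (m + 1) → ℝ × ℝ) × (ℝ × ℝ)) : Fin (m + 1) → ℝ × ℝ :=
  Fin.snoc (α := fun _ => ℝ × ℝ) (Fin.tail p.1) p.2

lemma slots_shift_last {m : ℕ} (z : Fin (m + 1) → ℝ × ℝ) (x : ℝ × ℝ) :
    slots (shift (z, x)) (Fin.last m) = max (x.1 - x.2) 0 := by
  unfold slots shift
  rw [Fin.snoc_last, Fin.sum_univ_castSucc]
  simp only [Fin.snoc_last, le_refl, if_true]
  rw [Finset.sum_eq_zero]
  · simp
  · intro l _
    rw [if_neg]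
    simp

lemma slots_shift_castSucc {m : ℕ} (z : Fin (m + 1) → ℝ × ℝ) (x : ℝ × ℝ) (hx : 0 ≤ x.2)
    (i : Fin m) :
    slots (shift (z, x)) i.castSucc = max (slots z i.succ - x.2) 0 := by
  unfold slots shift
  rw [Fin.snoc_castSucc, Fin.sum_univ_castSucc, Fin.sum_univ_succ]
  simp only [Fin.snoc_castSucc, Fin.snoc_last, Fin.castSucc_le_castSucc_iff, Fin.le_last, if_true,
    Fin.succ_le_succ_iff, Fin.tail]
  rw [if_neg (by simp)]
  set A := ∑ l : Fin m, if i ≤ l then (z l.succ).2 else 0
  rcases le_total ((z i.succ).1 - (0 + A)) 0 with h | h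
  · rw [max_eq_right h, max_eq_right, max_eq_right] <;> linarith
  · rw [max_eq_left h]
    congr 1
    ring

lemma slots_nonneg {m : ℕ} (z : Fin (m + 1) → ℝ × ℝ) (i : Fin (m + 1)) : 0 ≤ slots z i :=
  le_max_right _ _

/-- The vector obtained from the slots before reordering. -/
noncomputable def bumped {m : ℕ} (u : Fin (m + 1) → ℝ) (s t : ℝ) : Fin (m + 1) → ℝ :=
  fun j => max (u j + (if (j : ℕ) = 0 then s else 0) - t) 0

lemma kwStep_increasing {m : ℕ} (u : Fin (m + 1) → ℝ) (hu : ∀ i, 0 ≤ u i) (h0 : u 0 = 0)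
    (s t : ℝ) : kwStep (increasing u) s t = increasing (bumped u s t) := by
  have hσ : Tuple.sort u 0 = 0 := by
    have hs := (Tuple.eq_sort_iff (f := u) (σ := Tuple.sort u)).1 rfl
    by_contra hne
    have hj : (Tuple.sort u).symm 0 ≠ 0 := by
      intro h
      apply hne
      conv_lhs => rw [← h]
      simp
    have hpos : 0 < (Tuple.sort u).symm 0 := Fin.pos_iff_ne_zero.2 hj
    have hle := hs.1 hpos.le
    simp only [Function.comp_apply, Equiv.apply_symm_apply] at hle
    have he : u (Tuple.sort u 0) = u (Tuple.sort u ((Tuple.sort u).symm 0)) := by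
      rw [Equiv.apply_symm_apply]
      exact le_antisymm hle (by rw [h0]; exact hu _)
    have := hs.2 _ _ hpos he
    rw [Equiv.apply_symm_apply] at this
    exact absurd this (by simp)
  have : (fun i : Fin (m + 1) => max (increasing u i + (if (i : ℕ) = 0 then s else 0) - t) 0) =
      bumped u s t ∘ Tuple.sort u := by
    funext i
    unfold bumped increasing
    simp only [Function.comp_apply]
    have hiff : ((i : ℕ) = 0) ↔ ((Tuple.sort u i : Fin (m + 1)) : ℕ) = 0 := by
      constructor
      · intro h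
        have : i = 0 := Fin.ext h
        rw [this, hσ]
        rfl
      · intro h
        have : Tuple.sort u i = 0 := Fin.ext h
        rw [← hσ] at this
        have := (Tuple.sort u).injective this
        rw [this]
        rfl
    by_cases h : (i : ℕ) = 0
    · rw [if_pos h, if_pos (hiff.1 h)]
    · rw [if_neg h, if_neg (fun h' => h (hiff.2 h'))]
  unfold kwStep
  rw [this, increasing_comp_perm]

lemma slots_zero {m : ℕ} (c : ℝ) (z : Fin (m + 1) → ℝ × ℝ) (hs : ∀ i, (z i).1 ≤ (m + 1) * c)
    (ht : ∀ i, c ≤ (z i).2) : slots z 0 = 0 := by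
  unfold slots
  apply max_eq_right
  have h : (m + 1 : ℝ) * c ≤ ∑ l : Fin (m + 1), if 0 ≤ l then (z l).2 else 0 := by
    have : ∑ _l : Fin (m + 1), c ≤ ∑ l : Fin (m + 1), if 0 ≤ l then (z l).2 else 0 := by
      apply Finset.sum_le_sum
      intro l _
      rw [if_pos (Fin.zero_le l)]
      exact ht l
    simpa using this
  linarith [hs 0]

lemma step_slots {m : ℕ} (c : ℝ) (hc : 0 ≤ c) (z : Fin (m + 1) → ℝ × ℝ) (x : ℝ × ℝ)
    (hs : ∀ i, (z i).1 ≤ (m + 1) * c) (ht : ∀ i, c ≤ (z i).2) (hx : c ≤ x.2) :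
    kwStep (increasing (slots z)) x.1 x.2 = increasing (slots (shift (z, x))) := by
  rw [kwStep_increasing _ (slots_nonneg z) (slots_zero c z hs ht)]
  have : slots (shift (z, x)) = bumped (slots z) x.1 x.2 ∘ finRotate (m + 1) := by
    funext i
    refine Fin.lastCases ?_ (fun j => ?_) i
    · rw [slots_shift_last]
      simp only [Function.comp_apply, finRotate_last]
      unfold bumped
      rw [slots_zero c z hs ht]
      simp
    · rw [slots_shift_castSucc z x (hc.trans hx)]
      simp only [Function.comp_apply]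
      have : finRotate (m + 1) j.castSucc = j.succ := by
        rw [finRotate_apply]
        simp
      rw [this]
      unfold bumped
      simp
  rw [this, increasing_comp_perm]

lemma measurable_shift {m : ℕ} :
    Measurable (shift : (Fin (m + 1) → ℝ × ℝ) × (ℝ × ℝ) → (Fin (m + 1) → ℝ × ℝ)) := by
  rw [measurable_pi_iff]
  intro i
  refine Fin.lastCases ?_ (fun j => ?_) i
  · simp only [shift, Fin.snoc_last]
    exact measurable_snd
  · simp only [shift, Fin.snoc_castSucc, Fin.tail]
    exact (measurable_pi_apply _).comp measurable_fst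

lemma measurable_slots {m : ℕ} :
    Measurable (slots : (Fin (m + 1) → ℝ × ℝ) → (Fin (m + 1) → ℝ)) := by
  rw [measurable_pi_iff]
  intro i
  unfold slots
  apply Measurable.max _ measurable_const
  apply Measurable.sub
  · exact measurable_fst.comp (measurable_pi_apply i)
  · apply Finset.measurable_sum
    intro l _
    split_ifs
    · exact measurable_snd.comp (measurable_pi_apply l)
    · exact measurable_const

lemma map_shift {m : ℕ} (ν : Measure (ℝ × ℝ)) [IsProbabilityMeasure ν] :
    Measure.map shift ((Measure.pi (fun _ : Fin (m + 1) => ν)).prod ν) =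
      Measure.pi (fun _ : Fin (m + 1) => ν) := by
  symm
  apply Measure.pi_eq
  intro s hs
  rw [Measure.map_apply measurable_shift (MeasurableSet.univ_pi hs)]
  have : shift ⁻¹' (Set.univ.pi s) =
      (Set.univ.pi (fun i : Fin (m + 1) => Fin.cases (motive := fun _ => Set (ℝ × ℝ)) Set.univ
        (fun j => s j.castSucc) i)) ×ˢ (s (Fin.last m)) := by
    ext p
    simp only [Set.mem_preimage, Set.mem_pi, Set.mem_univ, true_implies, Set.mem_prod]
    constructor
    · intro h
      refine ⟨?_, ?_⟩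
      · intro i
        refine Fin.cases ?_ (fun j => ?_) i
        · simp
        · have := h j.castSucc
          simpa [shift, Fin.tail] using this
      · have := h (Fin.last m)
        simpa [shift] using this
    · rintro ⟨h1, h2⟩ i
      refine Fin.lastCases ?_ (fun j => ?_) i
      · simpa [shift] using h2
      · have := h1 j.succ
        simpa [shift, Fin.tail] using this
  rw [this, Measure.prod_prod, Measure.pi_pi, Fin.prod_univ_succ, Fin.prod_univ_castSucc]
  simp

/-- The stationary law. -/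
noncomputable def statLaw (m : ℕ) (μT μS : Measure ℝ) : Measure (Fin (m + 1) → ℝ) :=
  Measure.map (fun z => increasing (slots z)) (Measure.pi (fun _ : Fin (m + 1) => μS.prod μT))

lemma statLaw_stationary (m : ℕ) (μT μS : Measure ℝ) [IsProbabilityMeasure μT]
    [IsProbabilityMeasure μS] (c : ℝ) (hc : 0 ≤ c) (hT : ∀ᵐ t ∂μT, c ≤ t)
    (hS : ∀ᵐ s ∂μS, s ≤ (m + 1) * c) : IsStationary (m + 1) μT μS (statLaw m μT μS) := by
  have hmeas : Measurable (fun z : Fin (m + 1) → ℝ × ℝ => increasing (slots z)) :=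
    measurable_increasing.comp measurable_slots
  have hprob : IsProbabilityMeasure (statLaw m μT μS) :=
    Measure.isProbabilityMeasure_map hmeas.aemeasurable
  refine ⟨hprob, ?_, ?_⟩
  · unfold statLaw
    rw [ae_map_iff hmeas.aemeasurable]
    · filter_upwards with z
      exact ⟨increasing_mono _, fun i => slots_nonneg z _⟩
    · have h1 : MeasurableSet {w : Fin (m + 1) → ℝ | Monotone w} := by
        have : {w : Fin (m + 1) → ℝ | Monotone w} = ⋂ i, ⋂ j, ⋂ (_ : i ≤ j), {w | w i ≤ w j} := by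
          ext w
          simp [Monotone]
        rw [this]
        refine MeasurableSet.iInter (fun i => MeasurableSet.iInter (fun j =>
          MeasurableSet.iInter (fun _ => ?_)))
        exact measurableSet_le (measurable_pi_apply i) (measurable_pi_apply j)
      have h2 : MeasurableSet {w : Fin (m + 1) → ℝ | ∀ i, 0 ≤ w i} := by
        have : {w : Fin (m + 1) → ℝ | ∀ i, 0 ≤ w i} = ⋂ i, {w | 0 ≤ w i} := by
          ext w
          simp
        rw [this]
        refine MeasurableSet.iInter (fun i => ?_)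
        exact measurableSet_le measurable_const (measurable_pi_apply i)
      exact h1.inter h2
  · set ν := μS.prod μT with hν
    have e1 : (statLaw m μT μS).prod ν = Measure.map
        (Prod.map (fun z : Fin (m + 1) → ℝ × ℝ => increasing (slots z)) id)
        ((Measure.pi (fun _ : Fin (m + 1) => ν)).prod ν) := by
      unfold statLaw
      rw [← Measure.map_prod_map _ _ hmeas measurable_id, Measure.map_id]
    rw [e1, Measure.map_map measurable_kwStep (hmeas.prodMap measurable_id)]
    have hνs : ∀ᵐ x ∂ν, x.1 ≤ (m + 1) * c :=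
      (Measure.quasiMeasurePreserving_fst (μ := μS) (ν := μT)).ae hS
    have hνt : ∀ᵐ x ∂ν, c ≤ x.2 :=
      (Measure.quasiMeasurePreserving_snd (μ := μS) (ν := μT)).ae hT
    have hz : ∀ᵐ z ∂(Measure.pi (fun _ : Fin (m + 1) => ν)), ∀ i, (z i).1 ≤ (m + 1) * c ∧ c ≤ (z i).2 := by
      rw [ae_all_iff]
      intro i
      exact (Measure.quasiMeasurePreserving_eval (fun _ : Fin (m + 1) => ν) i).ae (hνs.and hνt)
    have hae : ∀ᵐ p ∂((Measure.pi (fun _ : Fin (m + 1) => ν)).prod ν),
        ((fun p : (Fin (m + 1) → ℝ) × ℝ × ℝ => kwStep p.1 p.2.1 p.2.2) ∘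
          Prod.map (fun z : Fin (m + 1) → ℝ × ℝ => increasing (slots z)) id) p =
        ((fun z => increasing (slots z)) ∘ shift) p := by
      have a1 := (Measure.quasiMeasurePreserving_fst
        (μ := Measure.pi (fun _ : Fin (m + 1) => ν)) (ν := ν)).ae hz
      have a2 := (Measure.quasiMeasurePreserving_snd
        (μ := Measure.pi (fun _ : Fin (m + 1) => ν)) (ν := ν)).ae hνt
      filter_upwards [a1, a2] with p h1 h2
      simp only [Function.comp_apply, Prod.map_fst, Prod.map_snd, id_eq]
      exact step_slots c hc p.1 p.2 (fun i => (h1 i).1) (fun i => (h1 i).2) h2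
    rw [Measure.map_congr hae, ← Measure.map_map hmeas measurable_shift, map_shift]
    rfl

/-! ### In every stationary law the first coordinate vanishes -/

lemma max_sub_le {x t y c : ℝ} (h : x ≤ y + c) (ht : c ≤ t) (hy : 0 ≤ y) : max (x - t) 0 ≤ y := by
  apply max_le _ hy
  linarith

/-- `level c M` collects the vectors with `i`-th coordinate at most `(i + M) c`. -/
def level {m : ℕ} (c : ℝ) (M : ℕ) : Set (Fin (m + 1) → ℝ) :=
  {w | ∀ i : Fin (m + 1), w i ≤ ((i : ℕ) + M : ℝ) * c}

lemma measurableSet_level {m : ℕ} (c : ℝ) (M : ℕ) :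
    MeasurableSet (level (m := m) c M) := by
  have : level (m := m) c M = ⋂ i : Fin (m + 1), {w | w i ≤ ((i : ℕ) + M : ℝ) * c} := by
    ext w
    simp [level]
  rw [this]
  exact MeasurableSet.iInter (fun i => measurableSet_le (measurable_pi_apply i) measurable_const)

lemma level_step {m : ℕ} (c : ℝ) (hc : 0 ≤ c) (M : ℕ) (w : Fin (m + 1) → ℝ)
    (hw : w ∈ level (m := m) c M) (s t : ℝ) (hs : s ≤ (m + 1) * c) (ht : c ≤ t) :
    kwStep w s t ∈ level (m := m) c M := by
  intro j
  unfold kwStep
  apply increasing_le _ (fun i : Fin (m + 1) => ((i : ℕ) + M : ℝ) * c) _ (finRotate (m + 1)).symm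
  · intro i
    refine Fin.cases ?_ (fun l => ?_) i
    · have : (finRotate (m + 1)).symm 0 = Fin.last m := by
        rw [Equiv.symm_apply_eq, finRotate_last]
      rw [this]
      simp only [Fin.val_zero, if_true, Fin.val_last]
      apply max_sub_le (c := c) _ ht (by positivity)
      have := hw 0
      simp only [Fin.val_zero, Nat.cast_zero, zero_add] at this
      linarith
    · have : (finRotate (m + 1)).symm l.succ = l.castSucc := by
        rw [Equiv.symm_apply_eq, finRotate_apply]
        simp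
      rw [this]
      simp only [Fin.val_succ, Nat.add_eq_zero_iff, one_ne_zero, and_false, if_false, add_zero,
        Fin.val_castSucc]
      apply max_sub_le (c := c) _ ht (by positivity)
      have := hw l.succ
      simp only [Fin.val_succ, Nat.cast_add, Nat.cast_one] at this
      linarith
  · intro a b hab
    have : ((a : ℕ) : ℝ) ≤ (b : ℕ) := by exact_mod_cast hab
    simp only
    nlinarith

lemma level_drop {m : ℕ} (c : ℝ) (hc : 0 ≤ c) (M : ℕ) (w : Fin (m + 1) → ℝ)
    (hw : w ∈ level (m := m) c (M + 1)) (t : ℝ) (ht : c ≤ t) :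
    kwStep w 0 t ∈ level (m := m) c M := by
  intro j
  unfold kwStep
  apply increasing_le _ (fun i : Fin (m + 1) => ((i : ℕ) + M : ℝ) * c) _ (Equiv.refl _)
  · intro i
    simp only [ite_self, add_zero, Equiv.refl_apply]
    apply max_sub_le (c := c) _ ht (by positivity)
    have := hw i
    push_cast at this
    linarith
  · intro a b hab
    have : ((a : ℕ) : ℝ) ≤ (b : ℕ) := by exact_mod_cast hab
    simp only
    nlinarith

lemma level_null {m : ℕ} {μT μS : Measure ℝ} [IsProbabilityMeasure μT] [IsProbabilityMeasure μS]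
    {π : Measure (Fin (m + 1) → ℝ)} (hπ : IsStationary (m + 1) μT μS π) (c : ℝ) (hc : 0 ≤ c)
    (hT : ∀ᵐ t ∂μT, c ≤ t) (hS : ∀ᵐ s ∂μS, s ≤ (m + 1) * c) (h0 : μS {0} ≠ 0) (M : ℕ) :
    π (level c (M + 1) \ level c M) = 0 := by
  have := hπ.prob
  set A := level (m := m) c M with hA
  set D := level (m := m) c (M + 1) \ level c M with hD
  have mA : MeasurableSet A := measurableSet_level c M
  have mD : MeasurableSet D := (measurableSet_level c (M + 1)).diff (measurableSet_level c M)
  have e1 : π A = (π.prod (μS.prod μT)) ((fun p : (Fin (m + 1) → ℝ) × ℝ × ℝ =>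
      kwStep p.1 p.2.1 p.2.2) ⁻¹' A) := by
    conv_lhs => rw [← hπ.invariant]
    rw [Measure.map_apply measurable_kwStep mA]
  have hfullT : μT (Set.Ici c) = 1 := by
    rw [← prob_compl_eq_zero_iff measurableSet_Ici]
    rw [ae_iff] at hT
    exact hT
  have hfullS : μS (Set.Iic ((m + 1) * c)) = 1 := by
    rw [← prob_compl_eq_zero_iff measurableSet_Iic]
    rw [ae_iff] at hS
    exact hS
  have hsub : (A ×ˢ (Set.Iic ((m + 1) * c) ×ˢ Set.Ici c)) ∪ (D ×ˢ ({0} ×ˢ Set.Ici c)) ⊆
      ((fun p : (Fin (m + 1) → ℝ) × ℝ × ℝ => kwStep p.1 p.2.1 p.2.2) ⁻¹' A) := by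
    rintro ⟨w, s, t⟩ h
    rcases h with h | h
    · simp only [Set.mem_prod, Set.mem_Iic, Set.mem_Ici] at h
      exact level_step c hc M w h.1 s t h.2.1 h.2.2
    · simp only [Set.mem_prod, Set.mem_singleton_iff, Set.mem_Ici] at h
      simp only [Set.mem_preimage]
      rw [h.2.1]
      exact level_drop c hc M w h.1.1 t h.2.2
  have hdisj : Disjoint (A ×ˢ (Set.Iic ((m + 1) * c) ×ˢ Set.Ici c)) (D ×ˢ (({0} : Set ℝ) ×ˢ Set.Ici c)) := by
    rw [Set.disjoint_left]
    rintro ⟨w, s, t⟩ h1 h2
    exact h2.1.2 h1.1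
  have h2 := measure_mono (μ := π.prod (μS.prod μT)) hsub
  rw [← e1, measure_union hdisj (mD.prod ((measurableSet_singleton 0).prod measurableSet_Ici)),
    Measure.prod_prod, Measure.prod_prod, Measure.prod_prod, Measure.prod_prod, hfullT, hfullS,
    mul_one, mul_one, mul_one] at h2
  have h3 : π D * μS {0} ≤ 0 := by
    have h4 : π A + π D * μS {0} ≤ π A + 0 := by simpa using h2
    exact (ENNReal.add_le_add_iff_left (measure_ne_top π A)).1 h4
  have h5 := nonpos_iff_eq_zero.1 h3
  rcases mul_eq_zero.1 h5 with h | h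
  · exact h
  · exact absurd h h0

lemma level_ae {m : ℕ} {μT μS : Measure ℝ} [IsProbabilityMeasure μT] [IsProbabilityMeasure μS]
    {π : Measure (Fin (m + 1) → ℝ)} (hπ : IsStationary (m + 1) μT μS π) (c : ℝ) (hc : 0 < c)
    (hT : ∀ᵐ t ∂μT, c ≤ t) (hS : ∀ᵐ s ∂μS, s ≤ (m + 1) * c) (h0 : μS {0} ≠ 0) :
    ∀ᵐ w ∂π, w ∈ level (m := m) c 0 := by
  have h1 : ∀ᵐ w ∂π, ∀ M : ℕ, w ∈ level (m := m) c (M + 1) → w ∈ level (m := m) c M := by
    rw [ae_all_iff]
    intro M
    have := level_null hπ c hc.le hT hS h0 M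
    rw [measure_eq_zero_iff_ae_notMem] at this
    filter_upwards [this] with w hw h
    by_contra h'
    exact hw ⟨h, h'⟩
  filter_upwards [h1] with w hw
  have h2 : ∃ M : ℕ, w ∈ level (m := m) c M := by
    obtain ⟨M, hM⟩ := exists_nat_ge (∑ i, |w i| / c)
    refine ⟨M, fun i => ?_⟩
    have h3 : |w i| / c ≤ ∑ i, |w i| / c :=
      Finset.single_le_sum (f := fun i => |w i| / c) (fun j _ => by positivity) (Finset.mem_univ i)
    have h4 : |w i| / c ≤ (i : ℕ) + M := by
      have : (0 : ℝ) ≤ (i : ℕ) := Nat.cast_nonneg _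
      linarith
    rw [div_le_iff₀ hc] at h4
    exact (le_abs_self _).trans h4
  obtain ⟨M, hM⟩ := h2
  induction M with
  | zero => exact hM
  | succ M ih => exact ih (hw M hM)

lemma meanWait_zero {m : ℕ} {μT μS : Measure ℝ} [IsProbabilityMeasure μT] [IsProbabilityMeasure μS]
    {π : Measure (Fin (m + 1) → ℝ)} (hπ : IsStationary (m + 1) μT μS π) (c : ℝ) (hc : 0 < c)
    (hT : ∀ᵐ t ∂μT, c ≤ t) (hS : ∀ᵐ s ∂μS, s ≤ (m + 1) * c) (h0 : μS {0} ≠ 0)
    (hk : 0 < m + 1) : meanWait hk π = 0 := by
  unfold meanWait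
  have h := level_ae hπ c hc hT hS h0
  rw [lintegral_eq_zero_iff']
  · filter_upwards [h] with w hw
    have := hw ⟨0, hk⟩
    simp only [Nat.cast_zero, add_zero, zero_mul] at this
    simp only [Pi.zero_apply]
    exact ENNReal.ofReal_of_nonpos this
  · exact (measurable_pi_apply _).ennreal_ofReal.aemeasurable

/-- The region of moments where part (a) fails by a system without waiting. -/
theorem no_wait (k : ℕ) (hk : 0 < k) (hk2 : 2 ≤ k) (mT mS mT2 mS2 : ℝ) (hT0 : 0 < mT)
    (hT2 : mT ^ 2 ≤ mT2) (hρ0 : 1 - 1 / (k : ℝ) < mS / (k * mT)) (hρ1 : mS / (k * mT) < 1)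
    (h1 : (2 * k - 1) * mS * mT - k * (k - 1) * mT ^ 2 < mS2) (h2 : mS2 < k * mS * mT) :
    ∃ μT μS : Measure ℝ, HasMoments μT mT mT2 ∧ HasMoments μS mS mS2 ∧
      (∃ π, IsStationary k μT μS π) ∧
      (∀ π, IsStationary k μT μS π → meanWait hk π = 0) ∧ 0 < rhs k mT mS mS2 := by
  obtain ⟨m, rfl⟩ : ∃ m, k = m + 1 := ⟨k - 1, by omega⟩
  have hkr : (0 : ℝ) < ((m + 1 : ℕ) : ℝ) := by exact_mod_cast hk
  set K : ℝ := ((m + 1 : ℕ) : ℝ) with hK
  have hK2 : 2 ≤ K := by rw [hK]; exact_mod_cast hk2
  have hKT : 0 < K * mT := mul_pos hkr hT0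
  have hS1 : mS < K * mT := by rwa [div_lt_one hKT] at hρ1
  have hS0 : (K - 1) * mT < mS := by
    rw [lt_div_iff₀ hKT] at hρ0
    have : (1 - 1 / K) * (K * mT) = (K - 1) * mT := by field_simp
    linarith
  have hSpos : 0 < mS := by nlinarith
  have hthr : mS ^ 2 < mS2 := by nlinarith [mul_pos (sub_pos.2 hS1) (sub_pos.2 hS0)]
  have hS2pos : 0 < mS2 := by nlinarith
  -- the two laws
  set c : ℝ := mS2 / (K * mS) with hc
  have hcpos : 0 < c := by positivity
  have hKc : K * c = mS2 / mS := by rw [hc]; field_simp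
  have hcT : c < mT := by
    rw [hc, div_lt_iff₀ (by positivity)]
    nlinarith
  set p : ℝ := mS ^ 2 / mS2 with hp
  have hp0 : 0 ≤ p := by positivity
  have hp1 : p < 1 := by rw [hp, div_lt_one hS2pos]; exact hthr
  set v : ℝ := mT2 - mT ^ 2 with hv
  have hv0 : 0 ≤ v := by rw [hv]; linarith
  set ε : ℝ := mT - c with hε
  have hε0 : 0 < ε := by rw [hε]; linarith
  set q : ℝ := ε ^ 2 / (v + ε ^ 2) with hq
  have hden : 0 < v + ε ^ 2 := by positivity
  have hq0 : 0 ≤ q := by positivity
  have hq1 : q ≤ 1 := by rw [hq, div_le_one hden]; linarith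
  have HT : HasMoments (twoPoint c (mT + v / ε) q) mT mT2 := by
    apply twoPoint_moments _ _ _ _ _ hq0 hq1 hcpos.le (by positivity)
    · have : c = mT - ε := by rw [hε]; ring
      rw [this, hq]
      field_simp
      ring
    · have h3 : c = mT - ε := by rw [hε]; ring
      have h4 : mT2 = v + mT ^ 2 := by rw [hv]; ring
      rw [h3, hq, h4]
      field_simp
      ring
  have HS : HasMoments (twoPoint 0 (mS2 / mS) p) mS mS2 := by
    apply twoPoint_moments _ _ _ _ _ hp0 hp1.le le_rfl (by positivity)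
    · rw [hp]; field_simp; ring
    · rw [hp]; field_simp; ring
  have := HT.prob
  have := HS.prob
  have aT : ∀ᵐ t ∂(twoPoint c (mT + v / ε) q), c ≤ t :=
    twoPoint_ae _ _ _ _ le_rfl (by have : 0 ≤ v / ε := by positivity
                                   linarith)
  have aS : ∀ᵐ s ∂(twoPoint 0 (mS2 / mS) p), s ≤ (m + 1) * c := by
    have hK' : ((m : ℝ) + 1) * c = mS2 / mS := by
      rw [← hKc, hK]
      push_cast
      ring
    rw [hK']
    exact twoPoint_ae _ _ _ _ (by positivity) le_rfl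
  have h0 : (twoPoint 0 (mS2 / mS) p) {0} ≠ 0 := by
    unfold twoPoint
    simp only [Measure.coe_add, Measure.coe_smul, Pi.add_apply, Pi.smul_apply, smul_eq_mul]
    have : Measure.dirac (0 : ℝ) {0} = 1 := by simp
    rw [this, mul_one]
    have hpos : 0 < ENNReal.ofReal (1 - p) := ENNReal.ofReal_pos.2 (by linarith)
    intro h
    have := (add_eq_zero.1 h).1
    exact hpos.ne' this
  refine ⟨_, _, HT, HS, ⟨_, statLaw_stationary m _ _ c hcpos.le aT aS⟩, ?_, ?_⟩
  · intro π hπ
    exact meanWait_zero hπ c hcpos aT aS h0 hk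
  · unfold rhs
    rw [← hK]
    apply mul_pos
    · have : 1 / K < 1 := by rw [div_lt_one hkr]; linarith
      have h5 : 1 - mS / (K * mT) < 1 / K := by linarith
      have h6 : K * (1 - mS / (K * mT)) < K * (1 / K) := mul_lt_mul_of_pos_left h5 hkr
      have h7 : K * (1 / K) = 1 := by field_simp
      linarith
    · apply lt_max_of_lt_left
      linarith

/-- Part (a) of Q1 fails, for every number of servers `k ≥ 2` and on an open region of moments:
there the class contains a system with mean wait `0` while the right-hand side is positive. In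
particular the statement of Q1 is false. -/
theorem result : ¬ Conjecture ∧
    ∀ (k : ℕ) (hk : 0 < k), 2 ≤ k → ∀ mT mS mT2 mS2 : ℝ, 0 < mT → mT ^ 2 ≤ mT2 →
      1 - 1 / (k : ℝ) < mS / (k * mT) → mS / (k * mT) < 1 →
      (2 * k - 1) * mS * mT - k * (k - 1) * mT ^ 2 < mS2 → mS2 < k * mS * mT →
      ∃ μT μS : Measure ℝ, HasMoments μT mT mT2 ∧ HasMoments μS mS mS2 ∧
        (∃ π, IsStationary k μT μS π) ∧
        (∀ π, IsStationary k μT μS π → meanWait hk π = 0) ∧ 0 < rhs k mT mS mS2 := by
  refine ⟨?_, fun k hk hk2 mT mS mT2 mS2 => no_wait k hk hk2 mT mS mT2 mS2⟩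
  intro H
  obtain ⟨μT, μS, h1, h2, ⟨π, hπ⟩, h3, h4⟩ := no_wait 2 (by norm_num) le_rfl 1 (3 / 2) 1 (11 / 4)
    (by norm_num) (by norm_num) (by norm_num) (by norm_num) (by norm_num) (by norm_num)
  have hA := (H 2 (by norm_num) le_rfl 1 (3 / 2) 1 (11 / 4) ⟨μT, μS, h1, h2⟩ (by norm_num)
    (by norm_num)).1 μT μS π h1 h2 hπ
  unfold lhs at hA
  rw [h3 π hπ, mul_zero, nonpos_iff_eq_zero, ENNReal.ofReal_eq_zero] at hA
  exact absurd h4 (not_lt.2 hA)

end Pool.Agent.Results.MP_97409a_pr.DaleyBoundFails
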